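import Pool.Agent.C4K.StDet

/-!
# C4 walks, module NOD: the large reading sets determine everything at `v` (from RDS)
-/

set_option autoImplicit false

namespace Pool.Agent.C4K.H86

open Finset Cl
open scoped Classical

noncomputable section

variable {V : Type} [Fintype V] {C : Cl V} {T L : ℕ}

/-- `om` and `om'` contain the same walks meeting `S` -/
def Agr (om om' : C.Wk T → Bool) (S : Finset V) : Prop := ∀ w : C.Wk T, w.meets S → om' w = om w

omit [Fintype V] in
theorem meets_mono {w : C.Wk T} {S S' : Finset V} (h : S ⊆ S') (hw : w.meets S) : w.meets S' := by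
  obtain ⟨i, hi, hm⟩ := hw
  exact ⟨i, hi, h hm⟩

theorem Agr.mono {om om' : C.Wk T → Bool} {S S' : Finset V} (h : Agr om om' S') (hS : S ⊆ S') :
    Agr om om' S := fun w hw => h w (meets_mono hS hw)

theorem Agr.symm {om om' : C.Wk T → Bool} {S : Finset V} (h : Agr om om' S) :
    Agr om' om S := fun w hw => (h w hw).symm

theorem Agr.rem {om om' : C.Wk T → Bool} {S : Finset V} (h : Agr om om' S) (w : C.Wk T) :
    Agr (Cl.rem om w) (Cl.rem om' w) S := by
  intro w' hw'
  unfold Cl.rem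
  by_cases he : w' = w
  · rw [he, Function.update_self, Function.update_self]
  · rw [Function.update_of_ne he, Function.update_of_ne he]
    exact h w' hw'

theorem rd_sub_nod (om : C.Wk T → Bool) (v : V) : rd L om v ⊆ nod L om v := by
  intro u hu
  unfold nod
  rw [mem_filter]
  exact ⟨mem_univ _, Or.inl hu⟩

theorem rd2_sub_nod {om : C.Wk T → Bool} {v : V} {w : C.Wk T} (hw : om w = true)
    (hm : w.meets (rd L om v)) : rd L (Cl.rem om w) v ⊆ nod L om v := by
  intro u hu
  unfold nod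
  rw [mem_filter]
  exact ⟨mem_univ _, Or.inr (Or.inl ⟨w, hw, hm, hu⟩)⟩

theorem rd3_sub_nod {om : C.Wk T → Bool} {v y : V} {w : C.Wk T} {l : ℕ} (hw : om w = true)
    (hl : l < T) (hv : w.n l = v) (hy : w.hd l y) : rd L (Cl.rem om w) y ⊆ nod L om v := by
  intro u hu
  unfold nod
  rw [mem_filter]
  exact ⟨mem_univ _, Or.inr (Or.inr ⟨w, hw, l, hl, hv, y, hy, hu⟩)⟩

theorem mult_eq {om om' : C.Wk T → Bool} {S : Finset V} (h : Agr om om' S) {u : V} (hu : u ∈ S) :
    mult om' u = mult om u := by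
  unfold mult
  congr 1
  ext w
  simp only [mem_filter, mem_univ, true_and]
  constructor
  · rintro ⟨h1, i, hi, he⟩
    have := h w ⟨i, hi, by rw [he]; exact hu⟩
    exact ⟨this ▸ h1, i, hi, he⟩
  · rintro ⟨h1, i, hi, he⟩
    have := h w ⟨i, hi, by rw [he]; exact hu⟩
    exact ⟨by rw [this]; exact h1, i, hi, he⟩

theorem mem_fw0 (om : C.Wk T → Bool) (v : V) : v ∈ fw L om v := by
  unfold fw
  rw [mem_filter]
  exact ⟨mem_univ _, 0, Nat.zero_le _, rfl⟩

theorem mem_bw0 (om : C.Wk T → Bool) (v : V) : v ∈ bw L om v := by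
  unfold bw
  rw [mem_filter]
  exact ⟨mem_univ _, 0, Nat.zero_le _, rfl⟩

theorem fw_sub_rd (om : C.Wk T → Bool) (v : V) : fw L om v ⊆ rd L om v := by
  intro u hu
  unfold rd
  rw [mem_filter]
  exact ⟨mem_univ _, Or.inl hu⟩

theorem it_one (f : V → Option V) (v : V) : it f 1 v = f v := by
  show (f v).bind (it f 0) = f v
  rcases f v with _ | y
  · rfl
  · rfl

omit [Fintype V] in
theorem hd_unique {w : C.Wk T} {l : ℕ} {y y' : V} (h : w.hd l y) (h' : w.hd l y') : y = y' := by
  unfold Wk.hd at h h'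
  rw [h] at h'
  exact Option.some.inj h'

/-- one direction of the equality of the large reading sets -/
theorem nod_sub (hR : Rds C T L) {om om' : C.Wk T → Bool} {v : V} (h : Agr om om' (nod L om v)) :
    nod L om v ⊆ nod L om' v := by
  have h1 : Agr om om' (rd L om v) := h.mono (rd_sub_nod om v)
  have hrd : rd L om' v = rd L om v := hR.stop om om' v h1
  intro u hu
  unfold nod at hu
  rw [mem_filter] at hu
  rcases hu.2 with hu | ⟨w, hw, hm, hu⟩ | ⟨w, hw, l, hl, hv, y, hy, hu⟩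
  · apply rd_sub_nod
    rw [hrd]
    exact hu
  · have hw' : om' w = true := by rw [h1 w hm]; exact hw
    have hm' : w.meets (rd L om' v) := by rw [hrd]; exact hm
    apply rd2_sub_nod hw' hm'
    rw [hR.stop (Cl.rem om w) (Cl.rem om' w) v ((h.mono (rd2_sub_nod hw hm)).rem w)]
    exact hu
  · have hmv : w.meets (rd L om v) := ⟨l, hl.le, by rw [hv]; exact hR.self om v⟩
    have hw' : om' w = true := by rw [h1 w hmv]; exact hw
    apply rd3_sub_nod hw' hl hv hy
    rw [hR.stop (Cl.rem om w) (Cl.rem om' w) y ((h.mono (rd3_sub_nod hw hl hv hy)).rem w)]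
    exact hu

/-- agreement on the large reading set of `om'` -/
theorem nod_agr (hR : Rds C T L) {om om' : C.Wk T → Bool} {v : V} (h : Agr om om' (nod L om v)) :
    nod L om' v = nod L om v := by
  have h1 : Agr om om' (rd L om v) := h.mono (rd_sub_nod om v)
  have hrd : rd L om' v = rd L om v := hR.stop om om' v h1
  apply Subset.antisymm
  · intro u hu
    unfold nod at hu
    rw [mem_filter] at hu
    rcases hu.2 with hu | ⟨w, hw, hm, hu⟩ | ⟨w, hw, l, hl, hv, y, hy, hu⟩
    · apply rd_sub_nod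
      rw [← hrd]
      exact hu
    · have hm' : w.meets (rd L om v) := by rw [← hrd]; exact hm
      have hw' : om w = true := by rw [← h1 w hm']; exact hw
      apply rd2_sub_nod hw' hm'
      rw [← hR.stop (Cl.rem om w) (Cl.rem om' w) v ((h.mono (rd2_sub_nod hw' hm')).rem w)]
      exact hu
    · have hmv : w.meets (rd L om v) := ⟨l, hl.le, by rw [hv]; exact hR.self om v⟩
      have hw' : om w = true := by rw [← h1 w hmv]; exact hw
      apply rd3_sub_nod hw' hl hv hy
      rw [← hR.stop (Cl.rem om w) (Cl.rem om' w) y ((h.mono (rd3_sub_nod hw' hl hv hy)).rem w)]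
      exact hu
  · exact nod_sub hR h

theorem Agr.back (hR : Rds C T L) {om om' : C.Wk T → Bool} {v : V}
    (h : Agr om om' (nod L om v)) : Agr om' om (nod L om' v) := by
  rw [nod_agr hR h]
  exact h.symm

theorem lo_imp {om om' : C.Wk T → Bool} {v : V} (h : Agr om om' (rd L om v))
    (hR : Rds C T L) {y : V} (hl : lnk om v y) : lnk om' v y := by
  obtain ⟨w, hw, i, hi, he, hy, hm1, hm2⟩ := hl
  have hvr : v ∈ rd L om v := hR.self om v
  have hx : w.n (i + 1) ∈ rd L om v := by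
    unfold rd
    rw [mem_filter]
    refine ⟨mem_univ _, Or.inr (Or.inl ⟨w, hw, i, hi, rfl, ?_, ?_⟩)⟩
    · rw [he]; exact mem_fw0 om v
    · rw [he]; exact hm1
  refine ⟨w, ?_, i, hi, he, hy, ?_, ?_⟩
  · rw [h w ⟨i, hi.le, by rw [he]; exact hvr⟩]
    exact hw
  · rw [mult_eq h hvr]; exact hm1
  · rw [mult_eq h hx]; exact hm2

theorem li_imp {om om' : C.Wk T → Bool} {v : V} (h : Agr om om' (rd L om v))
    {x : V} (hl : lnk om x v) : lnk om' x v := by
  obtain ⟨w, hw, i, hi, he, hy, hm1, hm2⟩ := hl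
  have hx1 : w.n (i + 1) ∈ rd L om v := by
    unfold rd
    rw [mem_filter]
    exact ⟨mem_univ _, Or.inr (Or.inr (Or.inl ⟨v, mem_bw0 om v, hy⟩))⟩
  have hx : x ∈ rd L om v := by
    unfold rd
    rw [mem_filter]
    exact ⟨mem_univ _, Or.inr (Or.inr (Or.inr ⟨w, hw, i, hi, he, hm2, v, mem_bw0 om v, hy⟩))⟩
  refine ⟨w, ?_, i, hi, he, hy, ?_, ?_⟩
  · rw [h w ⟨i, hi.le, by rw [he]; exact hx⟩]
    exact hw
  · rw [mult_eq h hx]; exact hm1
  · rw [mult_eq h hx1]; exact hm2

theorem jt_imp (hR : Rds C T L) {om om' : C.Wk T → Bool} {v : V}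
    (h : Agr om om' (nod L om v)) {t0 : ℕ} (ht0 : t0 ≤ L) (hj : Jt t0 om v) : Jt t0 om' v := by
  obtain ⟨w, i, l, t, ht, ⟨hw, hil, hl, y, hy, hit⟩, hv⟩ := hj
  have hm : w.meets (rd L om v) := ⟨l, hl.le, by rw [hv]; exact hR.self om v⟩
  have hA := (h.mono (rd3_sub_nod hw hl hv hy)).rem w
  refine ⟨w, i, l, t, ht, ⟨?_, hil, hl, y, hy, ?_⟩, hv⟩
  · rw [h w (meets_mono (rd_sub_nod om v) hm)]
    exact hw
  · rw [hR.fwd (Cl.rem om w) (Cl.rem om' w) y hA t (by omega)]
    exact hit

theorem meets_of_it (hR : Rds C T L) {om : C.Wk T → Bool} {w : C.Wk T} {v : V} {t i : ℕ}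
    (ht : t ≤ L) (hi : i ≤ T) (hit : it (cx (Cl.rem om w)) t v = some (w.n i)) :
    w.meets (rd L om v) := by
  rw [hR.meet om w v]
  refine ⟨i, hi, fw_sub_rd _ _ ?_⟩
  unfold fw
  rw [mem_filter]
  exact ⟨mem_univ _, t, ht, hit⟩

theorem jh_imp (hR : Rds C T L) {om om' : C.Wk T → Bool} {v : V}
    (h : Agr om om' (nod L om v)) {t0 : ℕ} (ht0 : t0 ≤ L) (hj : Jh t0 om v) : Jh t0 om' v := by
  obtain ⟨w, i, l, t, ht, ⟨hw, hil, hl, y, hy, hit⟩, hv⟩ := hj
  have hyv : y = v := hd_unique hy hv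
  rw [hyv] at hit
  have hm : w.meets (rd L om v) := meets_of_it hR (by omega) (by omega) hit
  have hA := (h.mono (rd2_sub_nod hw hm)).rem w
  refine ⟨w, i, l, t, ht, ⟨?_, hil, hl, v, hv, ?_⟩, hv⟩
  · rw [h w (meets_mono (rd_sub_nod om v) hm)]
    exact hw
  · rw [hR.fwd (Cl.rem om w) (Cl.rem om' w) v hA t (by omega)]
    exact hit

theorem iv_imp (hR : Rds C T L) {om om' : C.Wk T → Bool} {v : V}
    (h : Agr om om' (nod L om v)) {t1 t2 : ℕ} (ht2 : t2 ≤ L) (hj : Iv t1 t2 om v) :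
    Iv t1 t2 om' v := by
  obtain ⟨w, i, l, y, j, j', hw, hil, hl, hy, h1, h2, h3, h4⟩ := hj
  have hm : w.meets (rd L om v) := meets_of_it hR (by omega) (by omega) h2
  have hA := (h.mono (rd2_sub_nod hw hm)).rem w
  refine ⟨w, i, l, y, j, j', ?_, hil, hl, hy, ?_, ?_, h3, h4⟩
  · rw [h w (meets_mono (rd_sub_nod om v) hm)]
    exact hw
  · exact (hR.bwd (Cl.rem om w) (Cl.rem om' w) v hA j y (by omega)).2 h1
  · rw [hR.fwd (Cl.rem om w) (Cl.rem om' w) v hA j' (by omega)]
    exact h2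

/-- walks of `om` meeting a set -/
theorem card_meets (om : C.Wk T → Bool) (S : Finset V) (K0 : ℕ)
    (h : ∀ u ∈ S, mult om u < K0) :
    (univ.filter fun w : C.Wk T => om w = true ∧ w.meets S).card ≤ K0 * S.card := by
  have h1 : (univ.filter fun w : C.Wk T => om w = true ∧ w.meets S) ⊆
      S.biUnion fun u => univ.filter fun w : C.Wk T => om w = true ∧ w.has u := by
    intro w hw
    obtain ⟨hw1, i, hi, hm⟩ := (mem_filter.1 hw).2
    rw [mem_biUnion]
    exact ⟨w.n i, hm, mem_filter.2 ⟨mem_univ _, hw1, i, hi, rfl⟩⟩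
  calc _ ≤ (S.biUnion fun u => univ.filter fun w : C.Wk T => om w = true ∧ w.has u).card :=
        card_le_card h1
    _ ≤ ∑ u ∈ S, (univ.filter fun w : C.Wk T => om w = true ∧ w.has u).card := card_biUnion_le
    _ ≤ ∑ _u ∈ S, K0 := sum_le_sum fun u hu => (h u hu).le
    _ = K0 * S.card := by rw [sum_const, smul_eq_mul, mul_comm]

theorem nod_card (hR : Rds C T L) (om : C.Wk T → Bool) (v : V) (K0 : ℕ)
    (h : ∀ u ∈ nod L om v, mult om u < K0) :
    (nod L om v).card ≤ (4 * L + 5) * (1 + K0 * (4 * L + 5) + K0) := by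
  set W2 := univ.filter fun w : C.Wk T => om w = true ∧ w.meets (rd L om v) with hW2
  set W3 := univ.filter fun w : C.Wk T => om w = true ∧ w.has v with hW3
  -- the head of the link of `w` which starts in `v`
  have hsub : nod L om v ⊆ rd L om v ∪ (W2.biUnion fun w => rd L (Cl.rem om w) v) ∪
      (W3.biUnion fun w => univ.filter fun u => ∃ l, l < T ∧ w.n l = v ∧ ∃ y, w.hd l y ∧
        u ∈ rd L (Cl.rem om w) y) := by
    intro u hu
    unfold nod at hu
    rw [mem_filter] at hu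
    rw [mem_union, mem_union, mem_biUnion, mem_biUnion]
    rcases hu.2 with hu | ⟨w, hw, hm, hu⟩ | ⟨w, hw, l, hl, hv, y, hy, hu⟩
    · exact Or.inl (Or.inl hu)
    · exact Or.inl (Or.inr ⟨w, mem_filter.2 ⟨mem_univ _, hw, hm⟩, hu⟩)
    · exact Or.inr ⟨w, mem_filter.2 ⟨mem_univ _, hw, l, hl.le, hv⟩,
        mem_filter.2 ⟨mem_univ _, l, hl, hv, y, hy, hu⟩⟩
  have hrd : ∀ om' : C.Wk T → Bool, ∀ v', (rd L om' v').card ≤ 4 * L + 5 := by
    intro om' v'
    have := hR.card om' v'
    omega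
  have h2 : W2.card ≤ K0 * (4 * L + 5) := by
    calc W2.card ≤ K0 * (rd L om v).card :=
          card_meets om _ K0 fun u hu => h u (rd_sub_nod om v hu)
      _ ≤ K0 * (4 * L + 5) := Nat.mul_le_mul_left _ (hrd om v)
  have h3 : W3.card ≤ K0 := (h v (rd_sub_nod om v (hR.self om v))).le
  have h4 : (W2.biUnion fun w => rd L (Cl.rem om w) v).card ≤
      K0 * (4 * L + 5) * (4 * L + 5) := by
    calc _ ≤ ∑ w ∈ W2, (rd L (Cl.rem om w) v).card := card_biUnion_le
      _ ≤ ∑ _w ∈ W2, (4 * L + 5) := sum_le_sum fun w _ => hrd _ _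
      _ = W2.card * (4 * L + 5) := by rw [sum_const, smul_eq_mul]
      _ ≤ K0 * (4 * L + 5) * (4 * L + 5) := Nat.mul_le_mul_right _ h2
  have h5 : (W3.biUnion fun w => univ.filter fun u => ∃ l, l < T ∧ w.n l = v ∧ ∃ y, w.hd l y ∧
        u ∈ rd L (Cl.rem om w) y).card ≤ K0 * (4 * L + 5) := by
    calc _ ≤ ∑ w ∈ W3, (univ.filter fun u => ∃ l, l < T ∧ w.n l = v ∧ ∃ y, w.hd l y ∧
          u ∈ rd L (Cl.rem om w) y).card := card_biUnion_le
      _ ≤ ∑ _w ∈ W3, (4 * L + 5) := by
          refine sum_le_sum fun w _ => ?_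
          by_cases hex : ∃ l, l < T ∧ w.n l = v ∧ ∃ y, w.hd l y
          · obtain ⟨l, hl, hv, y, hy⟩ := hex
            have : (univ.filter fun u => ∃ l, l < T ∧ w.n l = v ∧ ∃ y, w.hd l y ∧
                u ∈ rd L (Cl.rem om w) y) ⊆ rd L (Cl.rem om w) y := by
              intro u hu
              obtain ⟨l', hl', hv', y', hy', hu'⟩ := (mem_filter.1 hu).2
              have hll : l' = l := w.2.inj l' l hl'.le hl.le (hv'.trans hv.symm)
              rw [hll] at hy'
              rw [hd_unique hy hy']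
              exact hu'
            exact (card_le_card this).trans (hrd _ _)
          · have : (univ.filter fun u => ∃ l, l < T ∧ w.n l = v ∧ ∃ y, w.hd l y ∧
                u ∈ rd L (Cl.rem om w) y) = ∅ := by
              rw [filter_eq_empty_iff]
              rintro u - ⟨l, hl, hv, y, hy, -⟩
              exact hex ⟨l, hl, hv, y, hy⟩
            rw [this, card_empty]
            exact Nat.zero_le _
      _ = W3.card * (4 * L + 5) := by rw [sum_const, smul_eq_mul]
      _ ≤ K0 * (4 * L + 5) := Nat.mul_le_mul_right _ h3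
  calc (nod L om v).card ≤ _ := card_le_card hsub
    _ ≤ (rd L om v ∪ (W2.biUnion fun w => rd L (Cl.rem om w) v)).card + _ := card_union_le _ _
    _ ≤ ((rd L om v).card + (W2.biUnion fun w => rd L (Cl.rem om w) v).card) + _ :=
        Nat.add_le_add_right (card_union_le _ _) _
    _ ≤ (4 * L + 5 + K0 * (4 * L + 5) * (4 * L + 5)) + K0 * (4 * L + 5) :=
        Nat.add_le_add (Nat.add_le_add (hrd om v) h4) h5
    _ = (4 * L + 5) * (1 + K0 * (4 * L + 5) + K0) := by ring

theorem nodT (hRds : RDSStmt) : NODStmt := by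
  intro V _ C d T L hok hL
  have hR : Rds C T L := hRds V C d T L hok hL
  have hrdv : ∀ (om om' : C.Wk T → Bool) v, Agr om om' (nod L om v) → Agr om om' (rd L om v) :=
    fun om om' v h => h.mono (rd_sub_nod om v)
  refine ⟨fun om om' v h => nod_agr hR h, ?_, ?_, ?_, ?_, ?_, ?_, fun om v K0 h =>
    nod_card hR om v K0 h⟩
  · intro om om' v h
    have hA := hrdv om om' v h
    have h1 : cx om' v = cx om v := by
      have := hR.fwd om om' v hA 1 (by omega)
      rwa [it_one, it_one] at this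
    have h2 : ∀ u, cx om' u = some v ↔ cx om u = some v := by
      intro u
      have := hR.bwd om om' v hA 1 u (by omega)
      rwa [it_one, it_one] at this
    unfold Dv
    rw [h1]
    constructor
    · rintro (h | ⟨h, h'⟩)
      · exact Or.inl h
      · exact Or.inr ⟨h, fun x hx => h' x ((h2 x).2 hx)⟩
    · rintro (h | ⟨h, h'⟩)
      · exact Or.inl h
      · exact Or.inr ⟨h, fun x hx => h' x ((h2 x).1 hx)⟩
  · intro om om' v h t0 ht0
    exact ⟨jt_imp hR (Agr.back hR h) ht0, jt_imp hR h ht0⟩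
  · intro om om' v h t0 ht0
    exact ⟨jh_imp hR (Agr.back hR h) ht0, jh_imp hR h ht0⟩
  · intro om om' v h t1 t2 ht2
    exact ⟨iv_imp hR (Agr.back hR h) ht2, iv_imp hR h ht2⟩
  · intro om om' v h y
    exact ⟨lo_imp (hrdv om' om v (Agr.back hR h)) hR, lo_imp (hrdv om om' v h) hR⟩
  · intro om om' v h x
    exact ⟨li_imp (hrdv om' om v (Agr.back hR h)), li_imp (hrdv om om' v h)⟩

end

end Pool.Agent.C4K.H86
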